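import Pool.Agent.W2helper18.RX.Fin
import Pool.Agent.W2helper71.RX.A
import Pool.Agent.W2helper51.RX.M
import Pool.Agent.W2helper17.RX.PB
import Pool.Agent.W2helper60.RX.C
import Pool.Agent.W2helper73.RX.D

/-!
# A positive proportion of all integers are `x + y` with `2 ^ x + y` prime

For all large `X` at least `c X` of the integers `n ≤ X` are sums of two positive integers `x`, `y` such that
`2 ^ x + y` is prime, with `c > 0` not depending on `X`; and this is true even with `2 ^ (32 x) ≤ X`.

Method: Romanoff's, for the shifts `2 ^ x - x`. The number of the solutions of `q - 2 ^ x + x = q' - 2 ^ x' + x'` in primes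
`q`, `q' ≤ X` and in `x`, `x' ≤ L`, `L` about `(log X) / 32 log 2`, is bounded with the Selberg sieve for pairs of primes
with difference `h`, whose dependence on `h` is the factor `∏ (1 + 1 / p)` over the primes dividing `h`. Its average over the
differences `h` of the shifts is bounded: the primes above `√L` contribute a bounded factor to the product, since `h` has at
most `L` prime factors and by the theorem of Mertens; for the primes up to `√L` we use that
`∏_{p ∈ S} (1 + 1 / p) ≤ C (1 + ∑_{p ∈ S} p ^ (-1 / 2))` for every set `S` of primes, and that the shifts are nearly equidistributed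
modulo `p` (in the progressions modulo the order of `2`, the power is constant and `x` is equidistributed). No estimate for
composite moduli is needed.
-/

set_option autoImplicit false

namespace Pool.Agent.Results.MP_fc7299_nt.PositiveProportion

open Finset Pool.Agent.W2helper18.RX

/-- There are `c > 0` and `X₀` such that for all `X ≥ X₀` at least `c X` of the integers `n ≤ X` are sums of two positive
integers `x` and `y` such that `2 ^ x + y` is prime and `2 ^ (32 x) ≤ X`. -/
theorem result : ∃ c : ℝ, 0 < c ∧ ∃ X₀ : ℕ, ∀ X : ℕ, X₀ ≤ X →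
    c * X ≤ ({n : ℕ | n ≤ X ∧ ∃ x y : ℕ, 0 < x ∧ 0 < y ∧ n = x + y ∧ (2 ^ x + y).Prime ∧
      2 ^ (32 * x) ≤ X}.ncard : ℝ) := by
  classical
  obtain ⟨c, hc, X₀, h⟩ := final
    (Pool.Agent.W2helper60.RX.p_C Pool.Agent.W2helper71.RX.a Pool.Agent.W2helper51.RX.pm
      Pool.Agent.W2helper17.RX.p_B) Pool.Agent.W2helper73.RX.d
  refine ⟨c, hc, X₀ + 1, fun X hX => (h X (by omega)).trans ?_⟩
  have hfin : {n : ℕ | n ≤ X ∧ ∃ x y : ℕ, 0 < x ∧ 0 < y ∧ n = x + y ∧ (2 ^ x + y).Prime ∧
      2 ^ (32 * x) ≤ X}.Finite := (Set.finite_Iic X).subset fun n hn => hn.1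
  have hsub : ((RL (LL X) X : Finset ℕ) : Set ℕ) ⊆ {n : ℕ | n ≤ X ∧ ∃ x y : ℕ, 0 < x ∧ 0 < y ∧ n = x + y ∧
      (2 ^ x + y).Prime ∧ 2 ^ (32 * x) ≤ X} := by
    intro n hn
    unfold RL at hn
    rw [Finset.mem_coe, mem_filter, mem_Icc] at hn
    obtain ⟨hn1, x, y, hx, hxL, hy, hxy, hp⟩ := hn
    refine ⟨hn1.2, x, y, hx, hy, hxy, hp, ?_⟩
    unfold LL at hxL
    calc 2 ^ (32 * x) ≤ 2 ^ Nat.log 2 X := Nat.pow_le_pow_right (by norm_num) (by omega)
      _ ≤ X := Nat.pow_log_le_self 2 (by omega)
  have h1 := Set.ncard_le_ncard hsub hfin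
  rw [Set.ncard_coe_finset] at h1
  exact_mod_cast h1

end Pool.Agent.Results.MP_fc7299_nt.PositiveProportion
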